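import Mathlib

set_option autoImplicit false

namespace Pool.Agent.H.MP_70096d_gt

open Set Filter Topology

def W (X : Type*) [Preorder X] (t : TopologicalSpace X) : Prop :=
  ∀ 𝒦 : Set (Set X), 𝒦.Nonempty → DirectedOn (· ⊇ ·) 𝒦 →
    (∀ K ∈ 𝒦, @IsCompact X t K ∧ IsUpperSet K) → ∀ C, IsClosed[t] C →
    (∀ K ∈ 𝒦, (K ∩ C).Nonempty) → ∃ x ∈ C, ∀ K ∈ 𝒦, x ∈ K

theorem cont {X Y : Type*} [Preorder X] [Preorder Y] [TopologicalSpace X] [TopologicalSpace Y]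
    [IsScott X univ] [IsScott Y univ] {f : X → Y} (h : ScottContinuous f) : Continuous f :=
  (IsScott.scottContinuousOn_iff_continuous (D := univ) fun _ _ _ => trivial).1 h.scottContinuousOn

theorem cpt_up {X : Type*} [Preorder X] [TopologicalSpace X] [IsScott X univ] {S : Set X}
    (h : IsCompact S) : IsCompact {y | ∃ x ∈ S, x ≤ y} := by
  refine isCompact_of_finite_subcover fun U hU hc => ?_
  obtain ⟨t, ht⟩ := h.elim_finite_subcover U hU fun x hx => hc ⟨x, hx, le_rfl⟩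
  refine ⟨t, ?_⟩
  rintro y ⟨x, hx, hxy⟩
  obtain ⟨i, hi, h1⟩ := mem_iUnion₂.1 (ht hx)
  exact mem_biUnion hi (IsScott.isUpperSet_of_isOpen (D := univ) (hU i) hxy h1)

theorem push {X Z : Type*} [Preorder X] [TopologicalSpace X] [IsScott X univ] [TopologicalSpace Z]
    (hX : W X inferInstance) {f : Z → X} (hf : Continuous f) {𝒦 : Set (Set Z)} (h1 : 𝒦.Nonempty)
    (h2 : DirectedOn (· ⊇ ·) 𝒦) (h3 : ∀ K ∈ 𝒦, IsCompact K) {A : Set Z} (hA : IsClosed A)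
    {B : Set X} (hB : IsClosed B) (h4 : ∀ K ∈ 𝒦, ∃ z ∈ K ∩ A, f z ∈ B) :
    ∃ b ∈ B, ∀ K ∈ 𝒦, ∃ z ∈ K ∩ A, f z ≤ b := by
  obtain ⟨b, hb, h5⟩ := hX ((fun K => {y | ∃ x ∈ f '' (K ∩ A), x ≤ y}) '' 𝒦) (h1.image _)
    (directedOn_image.2 (h2.mono fun K L hKL y ⟨x, ⟨z, hz, e⟩, hx⟩ =>
      ⟨x, ⟨z, ⟨hKL hz.1, hz.2⟩, e⟩, hx⟩)) (by
      rintro _ ⟨K, hK, rfl⟩
      exact ⟨cpt_up (((h3 K hK).inter_right hA).image hf),
        fun a b hab ⟨x, hx, h⟩ => ⟨x, hx, h.trans hab⟩⟩) B hB (by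
      rintro _ ⟨K, hK, rfl⟩
      obtain ⟨z, hz, h⟩ := h4 K hK
      exact ⟨f z, ⟨f z, ⟨z, hz, rfl⟩, le_rfl⟩, h⟩)
  refine ⟨b, hb, fun K hK => ?_⟩
  obtain ⟨_, ⟨z, hz, rfl⟩, h⟩ := h5 _ ⟨K, hK, rfl⟩
  exact ⟨z, hz, h⟩

theorem rudin {Z : Type*} [TopologicalSpace Z] {𝒦 : Set (Set Z)}
    (h3 : ∀ K ∈ 𝒦, IsCompact K) {C : Set Z} (hC : IsClosed C) (h4 : ∀ K ∈ 𝒦, (K ∩ C).Nonempty) :
    ∃ A ⊆ C, IsClosed A ∧ (∀ K ∈ 𝒦, (K ∩ A).Nonempty) ∧
      ∀ B, IsClosed B → (∀ K ∈ 𝒦, (K ∩ (A ∩ B)).Nonempty) → A ⊆ B := by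
  obtain ⟨A, h5, h6⟩ := zorn_superset_nonempty {A | IsClosed A ∧ ∀ K ∈ 𝒦, (K ∩ A).Nonempty}
    (fun c hc hch hne => by
      refine ⟨⋂₀ c, ⟨isClosed_sInter fun s hs => (hc hs).1, fun K hK => ?_⟩,
        fun s hs => sInter_subset_of_mem hs⟩
      by_contra h
      have := hne.to_subtype
      rw [not_nonempty_iff_eq_empty, sInter_eq_iInter] at h
      obtain ⟨i, hi⟩ := (h3 K hK).elim_directed_family_closed (fun i : c => i.1)
        (fun i => (hc i.2).1) h fun i j => (hch.total i.2 j.2).elim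
          (fun h => ⟨i, Subset.rfl, h⟩) fun h => ⟨j, h, Subset.rfl⟩
      exact ((hc i.2).2 K hK).ne_empty hi) C ⟨hC, h4⟩
  exact ⟨A, h5, h6.1.1, h6.1.2, fun B hB h =>
    (h6.2 ⟨h6.1.1.inter hB, h⟩ inter_subset_left).trans inter_subset_right⟩

theorem prod_aux {P Q Z : Type*} [Preorder P] [Preorder Q] [Preorder Z] [TopologicalSpace P]
    [TopologicalSpace Q] [TopologicalSpace Z] [IsScott P univ] [IsScott Q univ] [IsScott Z univ]
    (f : Z → P) (g : Z → Q) (m : P → Q → Z) (hf : ScottContinuous f) (hg : ScottContinuous g)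
    (h1 : ∀ x, ScottContinuous (m x)) (h2 : ∀ y, ScottContinuous fun x => m x y)
    (he : ∀ z, m (f z) (g z) = z) (hP : W P inferInstance) (hQ : W Q inferInstance) :
    W Z inferInstance := by
  intro 𝒦 hne hd hK C hC hm
  obtain ⟨A, hAC, hA, h3, h4⟩ := rudin (fun K h => (hK K h).1) hC hm
  have hAl := IsScott.isClosed_iff_isLowerSet_and_dirSupClosed.1 hA
  have hT : ∀ K ∈ 𝒦, IsClosed {t | ∃ z ∈ K ∩ A, m (f z) t ∈ A} := by
    intro K h
    refine IsScott.isClosed_iff_isLowerSet_and_dirSupClosed.2 ⟨?_, fun d hs hn hdd e hl => ?_⟩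
    · rintro a b hab ⟨z, hz, h5⟩
      exact ⟨z, hz, hAl.1 ((h1 _).monotone hab) h5⟩
    · have := hn.to_subtype
      by_contra h5
      obtain ⟨t, ht⟩ := ((hK K h).1.inter_right hA).elim_directed_family_closed
        (fun t : d => {z | m (f z) t ∈ A})
        (fun t => hA.preimage ((cont (h2 t)).comp (cont hf))) (by
          refine eq_empty_of_forall_notMem fun z hz => h5 ⟨z, hz.1, ?_⟩
          refine hAl.2 ?_ (hn.image _) (directedOn_image.2 (hdd.mono fun a b hab =>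
            (h1 _).monotone hab)) (h1 (f z) hn hdd hl)
          rintro _ ⟨t, ht, rfl⟩
          exact mem_iInter.1 hz.2 ⟨t, ht⟩) (fun s t => by
          obtain ⟨u, hu, h6, h7⟩ := hdd s s.2 t t.2
          exact ⟨⟨u, hu⟩, fun z hz => hAl.1 ((h1 _).monotone h6) hz,
            fun z hz => hAl.1 ((h1 _).monotone h7) hz⟩)
      obtain ⟨z, hz, h6⟩ := hs t.2
      exact (ht ▸ ⟨hz, h6⟩ : z ∈ (∅ : Set Z))
  have h5 : ∀ K ∈ 𝒦, ∀ w ∈ A, ∃ z ∈ K ∩ A, m (f z) (g w) ∈ A := fun K h =>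
    h4 _ ((hT K h).preimage (cont hg)) fun L hL => by
      obtain ⟨M, hM, h6, h7⟩ := hd K h L hL
      obtain ⟨z, hz⟩ := h3 M hM
      exact ⟨z, h7 hz.1, hz.2, z, ⟨h6 hz.1, hz.2⟩, by rw [he]; exact hz.2⟩
  obtain ⟨b, hb, h6⟩ := push hQ (cont hg) hne hd (fun K h => (hK K h).1) hA
    (isClosed_biInter hT) fun K h => by
      obtain ⟨z, hz⟩ := h3 K h
      exact ⟨z, hz, mem_iInter₂.2 fun L hL => h5 L hL z hz.2⟩
  have h7 : A ⊆ g ⁻¹' Iic b := h4 _ ((IsScott.isClosed_iff_isLowerSet_and_dirSupClosed.2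
      ⟨isLowerSet_Iic _, dirSupClosed_Iic _⟩).preimage (cont hg)) fun K h => by
    obtain ⟨z, hz, h8⟩ := h6 K h
    exact ⟨z, hz.1, hz.2, h8⟩
  obtain ⟨a, ha, h8⟩ := push hP (cont hf) hne hd (fun K h => (hK K h).1) hA
    (hA.preimage (cont (h2 b))) fun K h => mem_iInter₂.1 hb K h
  refine ⟨m a b, hAC ha, fun K h => ?_⟩
  obtain ⟨z, hz, h9⟩ := h8 K h
  refine (hK K h).2 ?_ hz.1
  rw [← he z]
  exact ((h2 _).monotone h9).trans ((h1 _).monotone (h7 hz.2))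

theorem prod {P Q : Type*} [Preorder P] [Preorder Q] (hP : W P (scott P univ))
    (hQ : W Q (scott Q univ)) : W (P × Q) (scott (P × Q) univ) := by
  let := scott P univ
  let := scott Q univ
  have : IsScott P univ := ⟨rfl⟩
  have : IsScott Q univ := ⟨rfl⟩
  let := scott (P × Q) univ
  have : IsScott (P × Q) univ := ⟨rfl⟩
  exact prod_aux Prod.fst Prod.snd Prod.mk ScottContinuous.fst ScottContinuous.snd
    (fun x => (ScottContinuous.const x).prodMk ScottContinuous.id)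
    (fun y => ScottContinuous.id.prodMk (ScottContinuous.const y)) (fun _ => rfl) hP hQ

def J : Type := Option (ℕ × ℕ∞)

def J.le : J → J → Prop
  | _, none => True
  | none, some _ => False
  | some p, some q => (p.1 = q.1 ∧ p.2 ≤ q.2) ∨ (q.2 = ⊤ ∧ p.2 ≤ q.1)

instance : PartialOrder J where
  le := J.le
  le_refl p := by cases p <;> simp [J.le]
  le_trans p q r h1 h2 := by
    cases p <;> cases q <;> cases r <;> simp only [J.le] at h1 h2 ⊢
    rcases h1 with ⟨h1, h1'⟩ | ⟨h1, h1'⟩ <;> rcases h2 with ⟨h2, h2'⟩ | ⟨h2, h2'⟩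
    · exact Or.inl ⟨h1.trans h2, h1'.trans h2'⟩
    · exact Or.inr ⟨h2, h1'.trans h2'⟩
    · exact Or.inr ⟨top_le_iff.1 (h1 ▸ h2'), h2 ▸ h1'⟩
    · rw [h1] at h2'; simp at h2'
  le_antisymm p q h1 h2 := by
    cases p <;> cases q <;> simp only [J.le] at h1 h2 ⊢
    congr 1
    rcases h1 with ⟨h1, h1'⟩ | ⟨h1, h1'⟩ <;> rcases h2 with ⟨h2, h2'⟩ | ⟨h2, h2'⟩
    · exact Prod.ext h1 (le_antisymm h1' h2')
    · exact Prod.ext h1 (le_antisymm h1' (h2 ▸ le_top))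
    · exact Prod.ext h2.symm (le_antisymm (h1 ▸ le_top) h2')
    · rw [h1] at h2'; simp at h2'

def pt (j : ℕ) (k : ℕ∞) : J := some (j, k)
def tp : J := none

theorem le_tp (x : J) : x ≤ tp := by cases x <;> trivial
theorem pt_le {j i : ℕ} {k l : ℕ∞} : pt j k ≤ pt i l ↔ (j = i ∧ k ≤ l) ∨ (l = ⊤ ∧ k ≤ i) := Iff.rfl
theorem not_tp_le (j : ℕ) (k : ℕ∞) : ¬ tp ≤ pt j k := id
theorem cases (x : J) : x = tp ∨ ∃ j k, x = pt j k := by
  cases x with
  | none => exact Or.inl rfl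
  | some p => exact Or.inr ⟨p.1, p.2, rfl⟩

theorem col_lub (j : ℕ) {S : Set ℕ∞} (hS : S.Nonempty) : IsLUB (pt j '' S) (pt j (sSup S)) := by
  refine ⟨?_, fun u hu => ?_⟩
  · rintro _ ⟨s, hs, rfl⟩
    exact pt_le.2 (Or.inl ⟨rfl, le_sSup hs⟩)
  · rcases cases u with rfl | ⟨i, l, rfl⟩
    · exact le_tp _
    · have h1 : ∀ s ∈ S, (j = i ∧ s ≤ l) ∨ (l = ⊤ ∧ s ≤ i) := fun s hs => hu ⟨s, hs, rfl⟩
      by_cases h : j = i
      · refine pt_le.2 (Or.inl ⟨h, sSup_le fun s hs => ?_⟩)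
        rcases h1 s hs with h2 | h2
        · exact h2.2
        · exact h2.1 ▸ le_top
      · obtain ⟨t, ht⟩ := hS
        exact pt_le.2 (Or.inr ⟨((h1 t ht).resolve_left fun h' => h h'.1).1,
          sSup_le fun s hs => ((h1 s hs).resolve_left fun h' => h h'.1).2⟩)

theorem dir {d : Set J} (h1 : d.Nonempty) (h2 : DirectedOn (· ≤ ·) d) (h3 : tp ∉ d) :
    ∃ j k, IsLUB d (pt j k) := by
  by_cases h4 : ∃ j, pt j ⊤ ∈ d
  · obtain ⟨j, hj⟩ := h4
    refine ⟨j, ⊤, IsGreatest.isLUB ⟨hj, fun x hx => ?_⟩⟩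
    obtain ⟨u, hu, h5, h6⟩ := h2 _ hj x hx
    rcases cases u with rfl | ⟨i, l, rfl⟩
    · exact absurd hu h3
    · rcases pt_le.1 h5 with ⟨rfl, h7⟩ | ⟨-, h7⟩
      · rwa [top_le_iff.1 h7] at h6
      · simp at h7
  · obtain ⟨x, hx⟩ := h1
    rcases cases x with rfl | ⟨j, k, rfl⟩
    · exact absurd hx h3
    have h5 : d = pt j '' {s | pt j s ∈ d} := by
      refine Subset.antisymm (fun y hy => ?_) (by rintro _ ⟨s, hs, rfl⟩; exact hs)
      obtain ⟨u, hu, h5, h6⟩ := h2 _ hx y hy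
      rcases cases y with rfl | ⟨j', k', rfl⟩
      · exact absurd hy h3
      rcases cases u with rfl | ⟨i, l, rfl⟩
      · exact absurd hu h3
      rcases pt_le.1 h5 with ⟨rfl, -⟩ | ⟨rfl, -⟩
      · rcases pt_le.1 h6 with ⟨rfl, -⟩ | ⟨rfl, -⟩
        · exact ⟨k', hy, rfl⟩
        · exact absurd ⟨_, hu⟩ h4
      · exact absurd ⟨_, hu⟩ h4
    exact ⟨j, _, h5 ▸ col_lub j ⟨k, hx⟩⟩

theorem dcpo (d : Set J) (h1 : d.Nonempty) (h2 : DirectedOn (· ≤ ·) d) : ∃ x, IsLUB d x := by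
  by_cases h3 : tp ∈ d
  · exact ⟨tp, IsGreatest.isLUB ⟨h3, fun x _ => le_tp x⟩⟩
  · obtain ⟨j, k, h⟩ := dir h1 h2 h3
    exact ⟨_, h⟩

def Cl (C : Set J) : Prop := C = univ ∨ (tp ∉ C ∧ IsLowerSet C ∧
  (∀ j (S : Set ℕ∞), S.Nonempty → (∀ s ∈ S, pt j s ∈ C) → pt j (sSup S) ∈ C) ∧
  ∃ N, ∀ m, N ≤ m → pt m ⊤ ∉ C)

def tau : TopologicalSpace J :=
  TopologicalSpace.ofClosed {C | Cl C}
    (Or.inr ⟨id, isLowerSet_empty, fun _ _ ⟨s, hs⟩ h => (h s hs).elim, 0, fun _ _ => id⟩)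
    (fun A hA => by
      by_cases h : ∀ C ∈ A, C = univ
      · exact Or.inl (sInter_eq_univ.2 h)
      · push Not at h
        obtain ⟨C, hC, h⟩ := h
        obtain ⟨h1, -, -, N, hN⟩ := (hA hC).resolve_left h
        refine Or.inr ⟨fun h2 => h1 (h2 C hC), fun a b hab ha D hD => ?_,
          fun j S h2 h3 D hD => ?_, N, fun m hm h2 => hN m hm (h2 C hC)⟩
        · rcases hA hD with rfl | h2
          · trivial
          · exact h2.2.1 hab (ha D hD)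
        · rcases hA hD with rfl | h4
          · trivial
          · exact h4.2.2.1 j S h2 fun s hs => h3 s hs D hD)
    (fun C hC D hD => by
      rcases hC with rfl | ⟨c1, c2, c3, N, hN⟩
      · exact Or.inl (univ_union _)
      rcases hD with rfl | ⟨d1, d2, d3, M, hM⟩
      · exact Or.inl (union_univ _)
      refine Or.inr ⟨fun h => h.elim c1 d1, c2.union d2, fun j S h1 h2 => ?_, max N M,
        fun m hm h => h.elim (hN m (le_of_max_le_left hm)) (hM m (le_of_max_le_right hm))⟩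
      by_cases h : ∀ s ∈ S, pt j s ∈ C
      · exact Or.inl (c3 j S h1 h)
      · push Not at h
        obtain ⟨t, ht, ht'⟩ := h
        refine Or.inr (d3 j S h1 fun s hs => ?_)
        rcases le_total s t with h | h
        · exact d2 (pt_le.2 (Or.inl ⟨rfl, h⟩)) ((h2 t ht).resolve_left ht')
        · exact (h2 s hs).resolve_left fun h' => ht' (c2 (pt_le.2 (Or.inl ⟨rfl, h⟩)) h'))

theorem closed_iff {C : Set J} : IsClosed[tau] C ↔ Cl C := by
  let := tau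
  rw [← isOpen_compl_iff]
  show (Cᶜ)ᶜ ∈ {C | Cl C} ↔ _
  rw [compl_compl]; rfl

theorem closure_eq (x : J) : closure[tau] {x} = Iic x := by
  let := tau
  refine Subset.antisymm (closure_minimal (singleton_subset_iff.2 self_mem_Iic) (closed_iff.2 ?_))
    fun y hy => ?_
  · rcases cases x with rfl | ⟨j, k, rfl⟩
    · exact Or.inl (eq_univ_of_forall le_tp)
    · refine Or.inr ⟨not_tp_le j k, isLowerSet_Iic _, fun i S h1 h2 => mem_Iic.2 ((col_lub i h1).2 ?_),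
        j + 1, fun m hm h => ?_⟩
      · rintro _ ⟨s, hs, rfl⟩
        exact h2 s hs
      · rcases pt_le.1 h with ⟨h, -⟩ | ⟨-, h⟩
        · omega
        · simp at h
  · rcases closed_iff.1 (isClosed_closure (s := {x})) with h | h
    · rw [h]; trivial
    · exact h.2.1 hy (subset_closure rfl)

theorem wtau : W J tau := by
  let := tau
  intro 𝒦 hne hd hK C hC hm
  rcases closed_iff.1 hC with rfl | ⟨c1, c2, c3, N, hN⟩
  · refine ⟨tp, trivial, fun K h => ?_⟩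
    obtain ⟨x, hx, -⟩ := hm K h
    exact (hK K h).2 (le_tp x) hx
  obtain ⟨K0, h0⟩ := hne
  obtain ⟨n, hn⟩ := (hK K0 h0).1.elim_directed_family_closed
    (fun n : ℕ => {x ∈ C | ∀ j k, x = pt j k → N + n ≤ j}) (fun n => closed_iff.2 (Or.inr
      ⟨fun h => c1 h.1, fun a b hab ha => ⟨c2 hab ha.1, fun j k e => by
        subst e
        rcases cases a with rfl | ⟨i, l, rfl⟩
        · exact absurd ha.1 c1
        · have h1 := ha.2 i l rfl
          rcases pt_le.1 hab with ⟨rfl, -⟩ | ⟨rfl, -⟩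
          · exact h1
          · exact absurd ha.1 (hN i (by omega))⟩, fun j S h1 h2 => ⟨c3 j S h1 fun s hs =>
        (h2 s hs).1, fun i l e => by
          obtain ⟨s, hs⟩ := h1
          have h3 := (h2 s hs).2 j s rfl
          have h4 : j = i := congrArg Prod.fst (Option.some.inj e)
          omega⟩, N, fun m hm h => hN m hm h.1⟩)) (by
      refine eq_empty_of_forall_notMem fun x hx => ?_
      have h1 := mem_iInter.1 hx.2
      rcases cases x with rfl | ⟨j, k, rfl⟩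
      · exact c1 (h1 0).1
      · have := (h1 (j + 1)).2 j k rfl
        omega) (directed_of_isDirected_le fun a b hab x hx => ⟨hx.1, fun j k e =>
        le_trans (by omega) (hx.2 j k e)⟩)
  have h1 : ∃ j, ∀ K ∈ 𝒦, ∃ k, pt j k ∈ K ∩ C := by
    by_contra h
    push Not at h
    choose F hF h1 using h
    have h2 : ∀ r : ℕ, ∃ L ∈ 𝒦, L ⊆ K0 ∧ ∀ j < r, L ⊆ F j := by
      intro r
      induction r with
      | zero => exact ⟨K0, h0, Subset.rfl, fun j hj => absurd hj (Nat.not_lt_zero j)⟩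
      | succ r ih =>
        obtain ⟨L, hL, h3, h4⟩ := ih
        obtain ⟨M, hM, h5, h6⟩ := hd L hL (F r) (hF r)
        refine ⟨M, hM, Subset.trans h5 h3, fun j hj => ?_⟩
        rcases Nat.lt_succ_iff_lt_or_eq.1 hj with h7 | rfl
        · exact Subset.trans h5 (h4 j h7)
        · exact h6
    obtain ⟨L, hL, h3, h4⟩ := h2 (N + n)
    obtain ⟨x, h5, h6⟩ := hm L hL
    rcases cases x with rfl | ⟨j, k, rfl⟩
    · exact c1 h6
    by_cases h7 : j < N + n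
    · exact h1 j k ⟨h4 j h7 h5, h6⟩
    · refine (hn ▸ ⟨h3 h5, h6, fun i l e => ?_⟩ : pt j k ∈ (∅ : Set J))
      have h4 : j = i := congrArg Prod.fst (Option.some.inj e)
      omega
  obtain ⟨j, hj⟩ := h1
  obtain ⟨k0, hk0⟩ := hj K0 h0
  refine ⟨pt j (sSup {s | pt j s ∈ C}), c3 j _ ⟨k0, hk0.2⟩ fun s hs => hs, fun K h => ?_⟩
  obtain ⟨k, hk⟩ := hj K h
  exact (hK K h).2 (pt_le.2 (Or.inl ⟨rfl, le_sSup hk.2⟩)) hk.1

theorem notw : ¬ W (J × Unit) (scott (J × Unit) univ) := by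
  intro h
  let := scott J univ
  have : IsScott J univ := ⟨rfl⟩
  let := scott (J × Unit) univ
  have : IsScott (J × Unit) univ := ⟨rfl⟩
  have c1 : Continuous (Prod.fst : J × Unit → J) := cont ScottContinuous.fst
  have c2 : Continuous fun x : J => (x, ()) :=
    cont (ScottContinuous.id.prodMk (ScottContinuous.const ()))
  have h1 : ∀ n : ℕ, IsCompact {x : J | x = tp ∨ ∃ m, n ≤ m ∧ x = pt m ⊤} := by
    intro n
    refine isCompact_of_finite_subcover fun U hU hc => ?_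
    obtain ⟨i, hi⟩ := mem_iUnion.1 (hc (Or.inr ⟨n, le_rfl, rfl⟩))
    have h2 := IsScott.isOpen_iff_isUpperSet_and_dirSupInaccOn (D := univ).1 (hU i)
    have h3 := col_lub n (S := range fun k : ℕ => (k : ℕ∞)) (range_nonempty _)
    rw [sSup_range, ENat.iSup_natCast] at h3
    obtain ⟨_, ⟨_, ⟨k, rfl⟩, rfl⟩, h4⟩ := h2.2 trivial ((range_nonempty _).image _) (by
      rintro _ ⟨_, ⟨a, rfl⟩, rfl⟩ _ ⟨_, ⟨b, rfl⟩, rfl⟩
      exact ⟨_, ⟨_, ⟨max a b, rfl⟩, rfl⟩, pt_le.2 (Or.inl ⟨rfl, by simp⟩),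
        pt_le.2 (Or.inl ⟨rfl, by simp⟩)⟩) h3 hi
    have h5 : ∀ m : ℕ, ∃ j, n ≤ m → pt m ⊤ ∈ U j := fun m => by
      by_cases h5 : n ≤ m
      · obtain ⟨j, hj⟩ := mem_iUnion.1 (hc (Or.inr ⟨m, h5, rfl⟩))
        exact ⟨j, fun _ => hj⟩
      · exact ⟨i, fun h6 => absurd h6 h5⟩
    choose F hF using h5
    classical
    refine ⟨insert i ((Finset.range k).image F), ?_⟩
    rintro x (rfl | ⟨m, hm, rfl⟩)
    · exact mem_biUnion (Finset.mem_insert_self _ _) (h2.1 (le_tp _) h4)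
    · by_cases h6 : m < k
      · exact mem_biUnion (Finset.mem_insert_of_mem (Finset.mem_image_of_mem F
          (Finset.mem_range.2 h6))) (hF m hm)
      · exact mem_biUnion (Finset.mem_insert_self _ _)
          (h2.1 (pt_le.2 (Or.inr ⟨rfl, Nat.cast_le.2 (not_lt.1 h6)⟩)) h4)
  have h2 : IsClosed ({tp}ᶜ : Set J) := by
    refine IsScott.isClosed_iff_isLowerSet_and_dirSupClosed.2
      ⟨fun a b hab ha e => ha (le_antisymm (le_tp a) (e ▸ hab)), fun d hs hn hd a hl e => ?_⟩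
    obtain ⟨j, k, h3⟩ := dir hn hd fun h3 => hs h3 rfl
    exact not_tp_le j k (e ▸ hl.2 h3.1)
  obtain ⟨x, hx, h3⟩ := h (range fun n : ℕ => (fun x : J => (x, ())) ''
    {x : J | x = tp ∨ ∃ m, n ≤ m ∧ x = pt m ⊤}) (range_nonempty _) (by
      rintro _ ⟨a, rfl⟩ _ ⟨b, rfl⟩
      refine ⟨_, ⟨max a b, rfl⟩, image_mono fun x hx => hx.imp id ?_,
        image_mono fun x hx => hx.imp id ?_⟩
      · exact fun ⟨m, h1, h2⟩ => ⟨m, le_of_max_le_left h1, h2⟩
      · exact fun ⟨m, h1, h2⟩ => ⟨m, le_of_max_le_right h1, h2⟩) (by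
      rintro _ ⟨n, rfl⟩
      refine ⟨(h1 n).image c2, ?_⟩
      rintro _ ⟨y, _⟩ hab ⟨x, hx, rfl⟩
      refine ⟨y, ?_, rfl⟩
      have h4 : x ≤ y := hab.1
      rcases cases y with rfl | ⟨j, k, rfl⟩
      · exact Or.inl rfl
      rcases hx with rfl | ⟨m, hm, rfl⟩
      · exact absurd h4 (not_tp_le j k)
      · rcases pt_le.1 h4 with ⟨rfl, h5⟩ | ⟨-, h5⟩
        · exact Or.inr ⟨m, hm, by rw [top_le_iff.1 h5]⟩
        · simp at h5) _ (h2.preimage c1) (by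
      rintro _ ⟨n, rfl⟩
      exact ⟨_, ⟨pt n ⊤, Or.inr ⟨n, le_rfl, rfl⟩, rfl⟩, fun e => by cases e⟩)
  rcases cases x.1 with e | ⟨j, k, e⟩
  · exact hx e
  · obtain ⟨y, hy, rfl⟩ := h3 _ ⟨j + 1, rfl⟩
    rcases hy with rfl | ⟨m, hm, rfl⟩
    · exact hx rfl
    · have h4 : m = j := congrArg Prod.fst (Option.some.inj e)
      omega

end Pool.Agent.H.MP_70096d_gt
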